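import Pool.Agent.N741.LD.Stm

/-!
LD/3, preparations: substitution of `X = T ^ q`, `Y = ζ T ^ p` into a polynomial in two variables.
-/

set_option autoImplicit false

namespace Pool.Agent.N141.LD

open Polynomial
open scoped Polynomial.Bivariate
open Pool.Agent.N741.LD

theorem coeff_coeff_swap (A : ℤ[X][Y]) (i j : ℕ) :
    ((Bivariate.swap A).coeff i).coeff j = (A.coeff j).coeff i := by
  induction A using Polynomial.induction_on' with
  | add p q hp hq => simp [hp, hq]
  | monomial n f =>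
    induction f using Polynomial.induction_on' with
    | add p q hp hq =>
      have h1 : (monomial n) (p + q) = monomial n p + monomial n q := map_add _ _ _
      rw [h1, map_add, coeff_add, coeff_add, coeff_add, coeff_add, hp, hq]
    | monomial m r =>
      rw [Bivariate.swap_monomial_monomial]
      simp only [coeff_monomial]
      by_cases h1 : m = i <;> by_cases h2 : n = j <;> simp [h1, h2, coeff_monomial]

theorem natDegree_coeff_le (A : ℤ[X][Y]) (j : ℕ) : (A.coeff j).natDegree ≤ dX A := by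
  rw [natDegree_le_iff_coeff_eq_zero]
  intro i hi
  rw [← coeff_coeff_swap, coeff_eq_zero_of_natDegree_lt hi, coeff_zero]

/-- the substitution `X ↦ T ^ q` -/
noncomputable def phi (q : ℕ) : ℤ[X] →+* ℂ[X] :=
  (expand ℂ q).toRingHom.comp (mapRingHom (Int.castRingHom ℂ))

theorem phi_apply (q : ℕ) (f : ℤ[X]) : phi q f = expand ℂ q (f.map (Int.castRingHom ℂ)) := rfl

theorem phi_injective {q : ℕ} (hq : 0 < q) : Function.Injective (phi q) := by
  intro f g h
  rw [phi_apply, phi_apply] at h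
  exact map_injective (Int.castRingHom ℂ) Int.cast_injective (expand_injective hq h)

theorem eval_phi (q : ℕ) (f : ℤ[X]) (x : ℂ) :
    (phi q f).eval x = (f.map (Int.castRingHom ℂ)).eval (x ^ q) := by
  rw [phi_apply, expand_eval]

theorem natDegree_phi (q : ℕ) (f : ℤ[X]) : (phi q f).natDegree = f.natDegree * q := by
  rw [phi_apply, natDegree_expand, natDegree_map_eq_of_injective Int.cast_injective]

theorem phi_eq (q E : ℕ) (f : ℤ[X]) (hf : f.natDegree ≤ E) :
    phi q f = ∑ i ∈ Finset.range (E + 1), C ((f.coeff i : ℤ) : ℂ) * X ^ (q * i) := by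
  conv_lhs => rw [f.as_sum_range' (E + 1) (Nat.lt_succ_of_le hf)]
  rw [map_sum]
  refine Finset.sum_congr rfl fun i _ => ?_
  rw [phi_apply, map_monomial, expand_monomial, ← C_mul_X_pow_eq_monomial, mul_comm i q]
  simp

/-- the polynomial `A(T ^ q, ζ T ^ p)` -/
noncomputable def P (A : ℤ[X][Y]) (p q : ℕ) (ζ : ℂ) : ℂ[X] := (A.map (phi q)).eval (C ζ * X ^ p)

theorem coeff_P {A : ℤ[X][Y]} {E : ℕ} (h1 : A.natDegree ≤ E) (h2 : dX A ≤ E) (p q : ℕ) (ζ : ℂ)
    (w : ℕ) : (P A p q ζ).coeff w = ∑ j ∈ Finset.range (E + 1), ∑ i ∈ Finset.range (E + 1),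
      if q * i + p * j = w then (((A.coeff j).coeff i : ℤ) : ℂ) * ζ ^ j else 0 := by
  unfold P
  rw [eval_eq_sum_range' (n := E + 1) (lt_of_le_of_lt natDegree_map_le (by omega)), finsetSum_coeff]
  refine Finset.sum_congr rfl fun j _ => ?_
  rw [coeff_map, phi_eq q E _ ((natDegree_coeff_le A j).trans h2), Finset.sum_mul, finsetSum_coeff]
  refine Finset.sum_congr rfl fun i _ => ?_
  have : C (((A.coeff j).coeff i : ℤ) : ℂ) * X ^ (q * i) * (C ζ * X ^ p) ^ j =
      C ((((A.coeff j).coeff i : ℤ) : ℂ) * ζ ^ j) * X ^ (q * i + p * j) := by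
    rw [mul_pow, ← pow_mul, pow_add, C_mul, C_pow]; ring
  rw [this, coeff_C_mul, coeff_X_pow]
  by_cases h : q * i + p * j = w
  · simp [h]
  · rw [if_neg h, if_neg (fun h' => h h'.symm), mul_zero]

/-- the coefficient of `T ^ w` in `A(T ^ q, ζ T ^ p)` as a polynomial in `ζ` -/
noncomputable def W (A : ℤ[X][Y]) (E p q w : ℕ) : ℂ[X] :=
  ∑ j ∈ Finset.range (E + 1), ∑ i ∈ Finset.range (E + 1),
      if q * i + p * j = w then C (((A.coeff j).coeff i : ℤ) : ℂ) * X ^ j else 0

theorem coeff_P_eq {A : ℤ[X][Y]} {E : ℕ} (h1 : A.natDegree ≤ E) (h2 : dX A ≤ E) (p q : ℕ) (ζ : ℂ)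
    (w : ℕ) : (P A p q ζ).coeff w = (W A E p q w).eval ζ := by
  rw [coeff_P h1 h2, W, eval_finsetSum]
  refine Finset.sum_congr rfl fun j _ => ?_
  rw [eval_finsetSum]
  refine Finset.sum_congr rfl fun i _ => ?_
  split_ifs <;> simp

theorem natDegree_W (A : ℤ[X][Y]) (E p q w : ℕ) : (W A E p q w).natDegree ≤ E := by
  unfold W
  refine natDegree_sum_le_of_forall_le _ _ fun j hj => ?_
  refine natDegree_sum_le_of_forall_le _ _ fun i _ => ?_
  rw [Finset.mem_range] at hj
  split_ifs
  · exact (natDegree_C_mul_X_pow_le _ _).trans (by omega)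
  · simp

theorem W_ne_zero {A : ℤ[X][Y]} {E : ℕ} (h1 : A.natDegree ≤ E) (h2 : dX A ≤ E) {p q : ℕ}
    (hq : 1 ≤ q) {i j : ℕ} (hij : (A.coeff j).coeff i ≠ 0) : W A E p q (q * i + p * j) ≠ 0 := by
  intro h
  have h3 := congrArg (fun f => coeff f j) h
  have hj : j ≤ E := by
    by_contra hc
    apply hij
    rw [coeff_eq_zero_of_natDegree_lt (show A.natDegree < j by omega), coeff_zero]
  have hi : i ≤ E := by
    by_contra hc
    apply hij
    have := natDegree_coeff_le A j
    rw [coeff_eq_zero_of_natDegree_lt (show (A.coeff j).natDegree < i by omega)]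
  have h4 : coeff (W A E p q (q * i + p * j)) j = (((A.coeff j).coeff i : ℤ) : ℂ) := by
    unfold W
    rw [finsetSum_coeff, Finset.sum_eq_single j]
    · rw [finsetSum_coeff, Finset.sum_eq_single i]
      · simp
      · intro i' _ hi'
        rw [if_neg, coeff_zero]
        intro h5
        apply hi'
        have h6 : q * i' = q * i := by omega
        exact Nat.eq_of_mul_eq_mul_left (by omega) h6
      · intro h5
        exact absurd (Finset.mem_range.mpr (by omega)) h5
    · intro j' _ hj'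
      rw [finsetSum_coeff]
      refine Finset.sum_eq_zero fun i' _ => ?_
      split_ifs
      · rw [coeff_C_mul, coeff_X_pow, if_neg (fun h' => hj' h'.symm), mul_zero]
      · simp
    · intro h5
      exact absurd (Finset.mem_range.mpr (by omega)) h5
  simp only [h4, coeff_zero] at h3
  exact hij (by exact_mod_cast h3)

theorem P_coeff_ne {A : ℤ[X][Y]} {E : ℕ} (h1 : A.natDegree ≤ E) (h2 : dX A ≤ E) {p q : ℕ} {ζ : ℂ}
    {w : ℕ} (h : (P A p q ζ).coeff w ≠ 0) :
    ∃ i j, (A.coeff j).coeff i ≠ 0 ∧ q * i + p * j = w ∧ i ≤ E ∧ j ≤ E := by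
  rw [coeff_P h1 h2] at h
  obtain ⟨j, hj, h⟩ := Finset.exists_ne_zero_of_sum_ne_zero h
  obtain ⟨i, hi, h⟩ := Finset.exists_ne_zero_of_sum_ne_zero h
  rw [Finset.mem_range] at hi hj
  refine ⟨i, j, ?_, ?_, by omega, by omega⟩
  · intro h0
    apply h
    simp [h0]
  · by_contra h0
    exact h (if_neg h0)

theorem card_support_P {A : ℤ[X][Y]} {E : ℕ} (h1 : A.natDegree ≤ E) (h2 : dX A ≤ E) (p q : ℕ)
    (ζ : ℂ) : (P A p q ζ).support.card ≤ (E + 1) ^ 2 := by
  classical
  have : (P A p q ζ).support ⊆ (Finset.range (E + 1) ×ˢ Finset.range (E + 1)).image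
      (fun v : ℕ × ℕ => q * v.1 + p * v.2) := by
    intro w hw
    rw [mem_support_iff] at hw
    obtain ⟨i, j, -, h3, hi, hj⟩ := P_coeff_ne h1 h2 hw
    rw [Finset.mem_image]
    exact ⟨(i, j), by simp; omega, h3⟩
  refine (Finset.card_le_card this).trans (Finset.card_image_le.trans ?_)
  simp [sq]

theorem eval_P (A : ℤ[X][Y]) (p q : ℕ) (ζ τ : ℂ) :
    (P A p q ζ).eval τ = (A.map (eval₂RingHom (Int.castRingHom ℂ) (τ ^ q))).eval (ζ * τ ^ p) := by
  unfold P
  have h1 : (evalRingHom τ) ((A.map (phi q)).eval (C ζ * X ^ p)) =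
      (A.map (phi q)).eval₂ (evalRingHom τ) (evalRingHom τ (C ζ * X ^ p)) :=
    (eval₂_at_apply _ _).symm
  rw [coe_evalRingHom] at h1
  rw [h1, eval₂_map, eval_map]
  congr 1
  · ext
    · simp
    · simp [phi_apply]
  · simp

end Pool.Agent.N141.LD
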