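import Pool.Agent.N141.LD.Weights

/-!
LD/3: a good root, by double counting; the final comparison of multiplicities.
-/

set_option autoImplicit false

namespace Pool.Agent.N141.LD

open Polynomial
open scoped Polynomial.Bivariate
open Pool.Agent.N741.LD

/-- many distinct nonzero roots -/
theorem many_roots (hfew : Few) (Q : ℂ[X]) (M w₁ w₂ : ℕ) (hM : Q.support.card ≤ M)
    (h1 : Q.coeff w₁ ≠ 0) (h2 : Q.coeff w₂ ≠ 0) :
    w₂ ≤ w₁ + (Q.roots.toFinset.erase 0).card * M := by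
  classical
  have hQ : Q ≠ 0 := fun h => h1 (by rw [h, coeff_zero])
  have h3 : w₂ ≤ Q.natDegree := le_natDegree_of_ne_zero h2
  have h4 : Q.natTrailingDegree ≤ w₁ := natTrailingDegree_le_of_ne_zero h1
  have h5 : Q.natDegree = Q.roots.card := (IsAlgClosed.splits Q).natDegree_eq_card_roots
  have h6 : Q.roots.card = ∑ τ ∈ Q.roots.toFinset, Q.rootMultiplicity τ := by
    rw [← Multiset.toFinset_sum_count_eq]
    exact Finset.sum_congr rfl fun τ _ => count_roots Q
  have h7 : ∑ τ ∈ Q.roots.toFinset, Q.rootMultiplicity τ ≤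
      Q.rootMultiplicity 0 + ∑ τ ∈ Q.roots.toFinset.erase 0, Q.rootMultiplicity τ := by
    by_cases h0 : (0 : ℂ) ∈ Q.roots.toFinset
    · rw [Finset.add_sum_erase _ (fun τ => Q.rootMultiplicity τ) h0]
    · rw [Finset.erase_eq_of_notMem h0]
      exact Nat.le_add_left _ _
  have h8 : ∑ τ ∈ Q.roots.toFinset.erase 0, Q.rootMultiplicity τ ≤
      (Q.roots.toFinset.erase 0).card * M := by
    rw [← smul_eq_mul]
    apply Finset.sum_le_card_nsmul
    intro τ hτ
    exact ((hfew Q τ hQ (Finset.ne_of_mem_erase hτ)).le).trans hM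
  rw [rootMultiplicity_eq_natTrailingDegree'] at h7
  omega

theorem card_fiber {A : ℤ[X][Y]} {E : ℕ} (hA : Irreducible A) (hd : 1 ≤ A.natDegree)
    (h1 : A.natDegree ≤ E) (p q : ℕ) (J : Finset ℂ) (τ : ℂ) (hτ : τ ≠ 0)
    [∀ ζ : ℂ, Decidable ((P A p q ζ).eval τ = 0)] :
    (J.filter (fun ζ => (P A p q ζ).eval τ = 0)).card ≤ E := by
  classical
  set F := A.map (eval₂RingHom (Int.castRingHom ℂ) (τ ^ q)) with hF
  have hF0 : F ≠ 0 := map_ne_zero_of_irreducible hA hd _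
  have hsub : (J.filter (fun ζ => (P A p q ζ).eval τ = 0)).image (fun ζ => ζ * τ ^ p) ⊆
      F.roots.toFinset := by
    intro y hy
    rw [Finset.mem_image] at hy
    obtain ⟨ζ, hζ, rfl⟩ := hy
    rw [Finset.mem_filter, eval_P] at hζ
    rw [Multiset.mem_toFinset, mem_roots hF0]
    exact hζ.2
  have hinj : Function.Injective (fun ζ : ℂ => ζ * τ ^ p) :=
    mul_left_injective₀ (pow_ne_zero p hτ)
  rw [← Finset.card_image_of_injective _ hinj]
  exact (Finset.card_le_card hsub).trans ((Multiset.toFinset_card_le _).trans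
    ((card_roots' F).trans (natDegree_map_le.trans h1)))

theorem good_root (hfew : Few) {A : ℤ[X][Y]} {E : ℕ} (hA : Irreducible A) (hd : 1 ≤ A.natDegree)
    (h1 : A.natDegree ≤ E) (h2 : dX A ≤ E) {p q : ℕ} (hq : 4 * E ^ 3 * (E + 1) ^ 2 + 4 * E + 1 ≤ q)
    {i₁ j₁ i₂ j₂ : ℕ} (hc₁ : (A.coeff j₁).coeff i₁ ≠ 0)
    (hc₂ : (A.coeff j₂).coeff i₂ ≠ 0) (hlt : q * i₁ + p * j₁ < q * i₂ + p * j₂)
    (hL : q ≤ 2 * E * ((q * i₂ + p * j₂) - (q * i₁ + p * j₁)))
    (J : Finset ℂ) (hJ : J.card = q) :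
    ∃ τ : ℂ, τ ≠ 0 ∧ (phi q A.leadingCoeff).eval τ ≠ 0 ∧ ∃ ζ ∈ J, (P A p q ζ).eval τ = 0 := by
  classical
  by_contra hcon
  push Not at hcon
  have hE : 1 ≤ E := hd.trans h1
  have hq1 : 1 ≤ q := by omega
  have hW₁ := W_ne_zero h1 h2 (p := p) hq1 hc₁
  have hW₂ := W_ne_zero h1 h2 (p := p) hq1 hc₂
  set w₁ := q * i₁ + p * j₁ with hw₁
  set w₂ := q * i₂ + p * j₂ with hw₂
  set W₁ := W A E p q w₁ with hW₁d
  set W₂ := W A E p q w₂ with hW₂d
  set Jg := J.filter (fun ζ => W₁.eval ζ ≠ 0 ∧ W₂.eval ζ ≠ 0) with hJg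
  have hJgcard : q ≤ Jg.card + 2 * E := by
    have h3 : J ⊆ Jg ∪ (W₁.roots.toFinset ∪ W₂.roots.toFinset) := by
      intro ζ hζ
      by_cases ha : W₁.eval ζ = 0
      · rw [Finset.mem_union, Finset.mem_union, Multiset.mem_toFinset, mem_roots hW₁]
        exact Or.inr (Or.inl ha)
      · by_cases hb : W₂.eval ζ = 0
        · rw [Finset.mem_union, Finset.mem_union, Multiset.mem_toFinset, Multiset.mem_toFinset,
            mem_roots hW₂]
          exact Or.inr (Or.inr hb)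
        · rw [Finset.mem_union, hJg, Finset.mem_filter]
          exact Or.inl ⟨hζ, ha, hb⟩
    have h4 := Finset.card_le_card h3
    have h5 := Finset.card_union_le Jg (W₁.roots.toFinset ∪ W₂.roots.toFinset)
    have h6 := Finset.card_union_le W₁.roots.toFinset W₂.roots.toFinset
    have h7 : W₁.roots.toFinset.card ≤ E :=
      (Multiset.toFinset_card_le _).trans ((card_roots' _).trans (natDegree_W _ _ _ _ _))
    have h8 : W₂.roots.toFinset.card ≤ E :=
      (Multiset.toFinset_card_le _).trans ((card_roots' _).trans (natDegree_W _ _ _ _ _))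
    omega
  set a := phi q A.leadingCoeff with ha
  have ha0 : a ≠ 0 := by
    rw [ha]
    intro h0
    exact leadingCoeff_ne_zero.mpr hA.ne_zero (phi_injective hq1 (by rw [h0, map_zero]))
  set R := a.roots.toFinset.erase 0 with hR
  have hRcard : R.card ≤ E * q := by
    refine (Finset.card_erase_le).trans ((Multiset.toFinset_card_le _).trans
      ((card_roots' a).trans ?_))
    rw [ha, natDegree_phi]
    exact Nat.mul_le_mul_right _ ((natDegree_coeff_le A _).trans h2)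
  have key := Finset.card_mul_le_card_mul (s := Jg) (t := R) (m := 2 * E ^ 2 + 1) (n := E)
    (fun ζ τ => (P A p q ζ).eval τ = 0) ?_ ?_
  · -- contradiction
    have h3 : (q - 2 * E) * (2 * E ^ 2 + 1) ≤ E * q * E :=
      (Nat.mul_le_mul_right _ (by omega)).trans (key.trans (Nat.mul_le_mul_right _ hRcard))
    obtain ⟨k, hk⟩ : ∃ k, q = 4 * E + 1 + k := ⟨q - (4 * E + 1), by
      have : 4 * E + 1 ≤ q := le_trans (by omega) hq
      omega⟩
    rw [hk, show 4 * E + 1 + k - 2 * E = 2 * E + 1 + k by omega] at h3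
    have h4 : E * (4 * E + 1 + k) * E < (2 * E + 1 + k) * (2 * E ^ 2 + 1) := by
      have h5 : 0 ≤ k * E ^ 2 := Nat.zero_le _
      nlinarith [Nat.zero_le (E ^ 2)]
    omega
  · intro ζ hζ
    rw [hJg, Finset.mem_filter] at hζ
    obtain ⟨hζJ, hz₁, hz₂⟩ := hζ
    have hsub : (P A p q ζ).roots.toFinset.erase 0 ⊆
        R.bipartiteAbove (fun ζ τ => (P A p q ζ).eval τ = 0) ζ := by
      intro τ hτ
      rw [Finset.mem_erase, Multiset.mem_toFinset] at hτ
      have hroot : (P A p q ζ).eval τ = 0 := (mem_roots'.mp hτ.2).2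
      rw [Finset.mem_bipartiteAbove, hR, Finset.mem_erase, Multiset.mem_toFinset, mem_roots ha0]
      refine ⟨⟨hτ.1, ?_⟩, hroot⟩
      by_contra hne
      exact hcon τ hτ.1 hne ζ hζJ hroot
    refine le_trans ?_ (Finset.card_le_card hsub)
    have h3 := many_roots hfew (P A p q ζ) ((E + 1) ^ 2) w₁ w₂ (card_support_P h1 h2 p q ζ)
      (by rw [coeff_P_eq h1 h2]; exact hz₁) (by rw [coeff_P_eq h1 h2]; exact hz₂)
    set c := ((P A p q ζ).roots.toFinset.erase 0).card with hc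
    by_contra hlt'
    have h4 : c ≤ 2 * E ^ 2 := by omega
    have h5 : w₂ - w₁ ≤ 2 * E ^ 2 * (E + 1) ^ 2 := by
      have : c * (E + 1) ^ 2 ≤ 2 * E ^ 2 * (E + 1) ^ 2 := Nat.mul_le_mul_right _ h4
      omega
    have h6 : q ≤ 2 * E * (2 * E ^ 2 * (E + 1) ^ 2) := hL.trans (Nat.mul_le_mul_left _ h5)
    have h7 : 2 * E * (2 * E ^ 2 * (E + 1) ^ 2) = 4 * E ^ 3 * (E + 1) ^ 2 := by ring
    omega
  · intro τ hτ
    rw [hR, Finset.mem_erase] at hτ
    refine le_trans (Finset.card_le_card ?_) (card_fiber hA hd h1 p q J τ hτ.1)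
    intro ζ hζ
    rw [Finset.mem_bipartiteBelow, hJg, Finset.mem_filter] at hζ
    rw [Finset.mem_filter]
    exact ⟨hζ.1.1, hζ.2⟩

theorem rootMultiplicity_pow' {Q : ℂ[X]} (_hQ : Q ≠ 0) (τ : ℂ) (n : ℕ) :
    (Q ^ n).rootMultiplicity τ = n * Q.rootMultiplicity τ := by
  rw [← count_roots, ← count_roots, roots_pow, Multiset.count_nsmul]

theorem rootMultiplicity_prod' {ι : Type*} (J : Finset ι) (f : ι → ℂ[X]) (hf : ∀ i ∈ J, f i ≠ 0)
    (τ : ℂ) : (∏ i ∈ J, f i).rootMultiplicity τ = ∑ i ∈ J, (f i).rootMultiplicity τ := by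
  classical
  induction J using Finset.induction_on with
  | empty => simp [rootMultiplicity_eq_zero]
  | insert i J hi ih =>
    have h1 : ∀ i ∈ J, f i ≠ 0 := fun i hi => hf i (Finset.mem_insert_of_mem hi)
    rw [Finset.prod_insert hi, Finset.sum_insert hi, rootMultiplicity_mul, ih h1]
    exact mul_ne_zero (hf i (Finset.mem_insert_self _ _)) (Finset.prod_ne_zero_iff.mpr h1)

theorem spa (hfew : Few) : Spa := by
  classical
  intro E
  refine ⟨4 * E ^ 3 * (E + 1) ^ 2 + 4 * E + 1, ?_⟩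
  intro A hA hd h1 h2 hcol p q s σ hp hq hs hσ U D n r hn hD hdvd
  have hE : 1 ≤ E := hd.trans h1
  have hq1 : 1 ≤ q := by omega
  obtain ⟨i₁, j₁, i₂, j₂, hc₁, hc₂, hlt, hL⟩ := weights hA.ne_zero h1 h2 hcol p q hq1
  have hAg := not_dvd_g h1 h2 hq1 hc₁ hc₂ hlt hs
  have hs0 : (s : ℂ) ≠ 0 := by rcases hs with rfl | rfl <;> norm_num
  obtain ⟨J, hJ, hJ'⟩ := exists_J q hq1 (-(s : ℂ)) (neg_ne_zero.mpr hs0)
  obtain ⟨τ, hτ, haτ, ζ₀, hζ₀, hPτ⟩ := good_root hfew hA hd h1 h2 hq hc₁ hc₂ hlt hL J hJ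
  set g : ℤ[X][Y] := C X ^ p + C (C s) * Y ^ q with hg
  rcases Nat.eq_zero_or_pos r with hr | hr
  · rw [hr]; exact Nat.zero_le _
  have hinj := phi_injective (q := q) hq1
  have hD0 : D ≠ 0 := fun h => hD (h ▸ dvd_zero _)
  have hg0 : g ≠ 0 := fun h => hAg (h ▸ dvd_zero _)
  have hU0 : U ≠ 0 := by
    rintro rfl
    rw [zero_pow (by omega), zero_sub] at hdvd
    replace hdvd : A ∣ C (C σ) * D ^ r * g ^ n := by
      obtain ⟨c, hc⟩ := hdvd
      exact ⟨-c, by linear_combination -hc⟩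
    have hσu : IsUnit (C (C σ) : ℤ[X][Y]) := by
      rw [isUnit_C, isUnit_C]
      rcases hσ with rfl | rfl
      · exact isUnit_one
      · exact isUnit_one.neg
    rw [mul_assoc, hσu.dvd_mul_left] at hdvd
    have hAp : Prime A := hA.prime
    rcases hAp.dvd_or_dvd hdvd with h3 | h3
    · exact hD (hAp.dvd_of_dvd_pow h3)
    · exact hAg (hAp.dvd_of_dvd_pow h3)
  -- pass to `ℂ[T]`
  have hm : ∀ Q : ℤ[X][Y], Q ≠ 0 → Q.map (phi q) ≠ 0 := fun Q hQ =>
    (Polynomial.map_ne_zero_iff hinj).mpr hQ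
  have hσ0 : phi q (C σ) ≠ 0 := by
    intro h0
    have h3 : (C σ : ℤ[X]) = 0 := hinj (by rw [h0, map_zero])
    rw [C_eq_zero] at h3
    rcases hσ with rfl | rfl <;> omega
  have hdvd' : A.map (phi q) ∣ U.map (phi q) ^ r - C (phi q (C σ)) * D.map (phi q) ^ r *
      g.map (phi q) ^ n := by
    have h3 := Polynomial.map_dvd (phi q) hdvd
    rwa [Polynomial.map_sub, Polynomial.map_mul, Polynomial.map_mul, Polynomial.map_pow,
      Polynomial.map_pow, Polynomial.map_pow, map_C] at h3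
  obtain ⟨α, β, hrel⟩ := resultant_relation (A.map (phi q)) (U.map (phi q)) (D.map (phi q))
    (g.map (phi q)) (phi q (C σ)) (hm A hA.ne_zero) (hm U hU0) (hm D hD0) (hm g hg0) hσ0 n r hdvd'
  obtain ⟨ε, hε, hRg⟩ := resultant_g A p q s hs hq1 hJ hJ'
  have hRD : resultant (A.map (phi q)) (D.map (phi q)) ≠ 0 := by
    rw [natDegree_map_eq_of_injective hinj, natDegree_map_eq_of_injective hinj, resultant_map_map]
    intro h0
    exact resultant_ne_zero_of_not_dvd hA hd hD (hinj (by rw [h0, map_zero]))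
  have hRg0 : resultant (A.map (phi q)) (g.map (phi q)) ≠ 0 := by
    rw [natDegree_map_eq_of_injective hinj, natDegree_map_eq_of_injective hinj, resultant_map_map]
    intro h0
    exact resultant_ne_zero_of_not_dvd hA hd hAg (hinj (by rw [h0, map_zero]))
  set RU := resultant (A.map (phi q)) (U.map (phi q)) with hRUd
  set RD := resultant (A.map (phi q)) (D.map (phi q)) with hRDd
  set Rg := resultant (A.map (phi q)) (g.map (phi q)) with hRgd
  set b := (A.map (phi q)).leadingCoeff with hb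
  have hb' : b = phi q A.leadingCoeff := by
    rw [hb, leadingCoeff_map_of_injective hinj]
  have hb0 : b ≠ 0 := by
    rw [hb]
    exact leadingCoeff_ne_zero.mpr (hm A hA.ne_zero)
  have hRHS : phi q (C σ) ^ (A.map (phi q)).natDegree * b ^ β * RD ^ r * Rg ^ n ≠ 0 :=
    mul_ne_zero (mul_ne_zero (mul_ne_zero (pow_ne_zero _ hσ0) (pow_ne_zero _ hb0))
      (pow_ne_zero _ hRD)) (pow_ne_zero _ hRg0)
  have hRU : RU ≠ 0 := by
    intro h0
    rw [h0, zero_pow (by omega), mul_zero] at hrel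
    exact hRHS hrel.symm
  have hmb : b.rootMultiplicity τ = 0 := by
    rw [rootMultiplicity_eq_zero_iff, hb']
    intro h0
    exact absurd h0 haτ
  have hmσ : (phi q (C σ)).rootMultiplicity τ = 0 := by
    rw [show phi q (C σ) = C (σ : ℂ) by rw [phi_apply]; simp, rootMultiplicity_C]
  have hP0 : ∀ ζ ∈ J, P A p q ζ ≠ 0 := by
    have h3 : C ε * ∏ ζ ∈ J, P A p q ζ ≠ 0 := by rw [← hRg]; exact hRg0
    exact Finset.prod_ne_zero_iff.mp (right_ne_zero_of_mul h3)
  have hmg : Rg.rootMultiplicity τ = ∑ ζ ∈ J, (P A p q ζ).rootMultiplicity τ := by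
    have h3 : C ε * ∏ ζ ∈ J, P A p q ζ ≠ 0 := by rw [← hRg]; exact hRg0
    rw [hRg, rootMultiplicity_mul h3, rootMultiplicity_C, zero_add,
      rootMultiplicity_prod' J _ hP0]
  have hmg1 : 1 ≤ Rg.rootMultiplicity τ := by
    rw [hmg]
    refine le_trans ?_ (Finset.single_le_sum (fun _ _ => Nat.zero_le _) hζ₀)
    exact (rootMultiplicity_pos (hP0 ζ₀ hζ₀)).mpr hPτ
  have hmg2 : Rg.rootMultiplicity τ ≤ E * (E + 1) ^ 2 := by
    rw [hmg, ← Finset.sum_filter_add_sum_filter_not J (fun ζ => (P A p q ζ).eval τ = 0)]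
    have h3 : ∑ ζ ∈ J.filter (fun ζ => ¬ (P A p q ζ).eval τ = 0),
        (P A p q ζ).rootMultiplicity τ = 0 := by
      refine Finset.sum_eq_zero fun ζ hζ => ?_
      rw [Finset.mem_filter] at hζ
      rw [rootMultiplicity_eq_zero_iff]
      intro h0
      exact absurd h0 hζ.2
    rw [h3, add_zero]
    refine (Finset.sum_le_card_nsmul _ _ ((E + 1) ^ 2) ?_).trans ?_
    · intro ζ hζ
      rw [Finset.mem_filter] at hζ
      exact ((hfew _ τ (hP0 ζ hζ.1) hτ).le).trans (card_support_P h1 h2 p q ζ)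
    · rw [smul_eq_mul]
      exact Nat.mul_le_mul_right _ (card_fiber hA hd h1 p q J τ hτ)
  -- compare multiplicities
  have hcmp := congrArg (fun Q : ℂ[X] => Q.rootMultiplicity τ) hrel
  rw [rootMultiplicity_mul (mul_ne_zero (pow_ne_zero _ hb0) (pow_ne_zero _ hRU)),
    rootMultiplicity_mul hRHS,
    rootMultiplicity_mul (mul_ne_zero (mul_ne_zero (pow_ne_zero _ hσ0) (pow_ne_zero _ hb0))
      (pow_ne_zero _ hRD)),
    rootMultiplicity_mul (mul_ne_zero (pow_ne_zero _ hσ0) (pow_ne_zero _ hb0)),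
    rootMultiplicity_pow' hb0, rootMultiplicity_pow' hb0, rootMultiplicity_pow' hRU,
    rootMultiplicity_pow' hRD, rootMultiplicity_pow' hRg0, rootMultiplicity_pow' hσ0, hmb, hmσ] at hcmp
  simp only [mul_zero, zero_add] at hcmp
  have hdiv : r ∣ n * Rg.rootMultiplicity τ := by
    have h3 : r ∣ r * RD.rootMultiplicity τ + n * Rg.rootMultiplicity τ := ⟨_, hcmp.symm⟩
    exact (Nat.dvd_add_right (dvd_mul_right _ _)).mp h3
  have hle := Nat.le_of_dvd (Nat.mul_pos (by omega) (by omega)) hdiv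
  refine hle.trans ?_
  rw [mul_comm]
  apply Nat.mul_le_mul_right
  refine hmg2.trans ?_
  have h3 : E * (E + 1) ^ 2 ≤ 4 * E ^ 3 * (E + 1) ^ 2 := by
    apply Nat.mul_le_mul_right
    nlinarith [pow_le_pow_right₀ hE (show 1 ≤ 3 by norm_num)]
  omega

end Pool.Agent.N141.LD
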