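import Pool.Agent.N141.LD.Basic

/-!
LD/3: coprimality over the fraction field, the relation of resultants.
-/

set_option autoImplicit false

namespace Pool.Agent.N141.LD

open Polynomial
open scoped Polynomial.Bivariate
open Pool.Agent.N741.LD

theorem coprime_of_not_dvd {R K : Type*} [CommRing R] [IsDomain R] [UniqueFactorizationMonoid R]
    [Field K] [Algebra R K] [IsFractionRing R K] {A N : R[X]} (hA : Irreducible A)
    (hd : A.natDegree ≠ 0) (h : ¬ A ∣ N) :
    IsCoprime (A.map (algebraMap R K)) (N.map (algebraMap R K)) := by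
  classical
  let _ : NormalizedGCDMonoid R := Classical.arbitrary _
  have hp : A.IsPrimitive := hA.isPrimitive hd
  have hirr : Irreducible (A.map (algebraMap R K)) :=
    hp.irreducible_iff_irreducible_map_fraction_map.mp hA
  rw [hirr.coprime_iff_not_dvd]
  intro hdvd
  apply h
  by_cases hN : N = 0
  · rw [hN]; exact dvd_zero _
  have h1 := N.eq_C_content_mul_primPart
  have hc : N.content ≠ 0 := by rwa [Ne, content_eq_zero_iff]
  have h2 : N.map (algebraMap R K) = C (algebraMap R K N.content) * N.primPart.map (algebraMap R K) := by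
    conv_lhs => rw [h1]
    rw [Polynomial.map_mul, map_C]
  have hu : IsUnit (C (algebraMap R K N.content) : K[X]) := by
    rw [isUnit_C, isUnit_iff_ne_zero]
    exact fun h0 => hc ((map_eq_zero_iff _ (IsFractionRing.injective R K)).mp h0)
  rw [h2, hu.dvd_mul_left] at hdvd
  have h3 := hp.dvd_of_fraction_map_dvd_fraction_map hdvd
  rw [h1]
  exact dvd_mul_of_dvd_right h3 _

theorem exists_irreducible_root (x : ℂ) (a : ℤ[X]) (ha : a ≠ 0)
    (h : eval₂RingHom (Int.castRingHom ℂ) x a = 0) :
    ∃ π : ℤ[X], Irreducible π ∧ eval₂RingHom (Int.castRingHom ℂ) x π = 0 := by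
  induction a using WfDvdMonoid.induction_on_irreducible with
  | zero => exact absurd rfl ha
  | unit u hu => exact absurd h (hu.map (eval₂RingHom (Int.castRingHom ℂ) x)).ne_zero
  | mul a i ha0 hi ih =>
    rw [map_mul, mul_eq_zero] at h
    rcases h with h | h
    · exact ⟨i, hi, h⟩
    · exact ih ha0 h

theorem map_ne_zero_of_irreducible {A : ℤ[X][Y]} (hA : Irreducible A) (hd : 1 ≤ A.natDegree)
    (x : ℂ) : A.map (eval₂RingHom (Int.castRingHom ℂ) x) ≠ 0 := by
  intro h
  set ψ := eval₂RingHom (Int.castRingHom ℂ) x with hψ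
  have h0 : ∀ j, ψ (A.coeff j) = 0 := fun j => by rw [← coeff_map, h, coeff_zero]
  have ha : A.leadingCoeff ≠ 0 := leadingCoeff_ne_zero.mpr hA.ne_zero
  obtain ⟨π, hπ, hπ0⟩ := exists_irreducible_root x A.leadingCoeff ha (h0 _)
  have hπd : π.natDegree ≠ 0 := by
    intro hc
    obtain ⟨n, rfl⟩ := natDegree_eq_zero.mp hc
    have h1 : ((n : ℤ) : ℂ) = 0 := by simpa using hπ0
    have h2 : n = 0 := by exact_mod_cast h1
    apply hπ.ne_zero
    rw [h2, C_0]
  have h1 : ∀ j, π ∣ A.coeff j := by
    intro j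
    by_contra hc
    obtain ⟨u, v, huv⟩ := coprime_of_not_dvd (K := ℚ) hπ hπd hc
    have h2 := congrArg (fun f => f.eval₂ (algebraMap ℚ ℂ) x) huv
    simp only [eval₂_add, eval₂_mul, eval₂_map, eval₂_one] at h2
    have e : (algebraMap ℚ ℂ).comp (algebraMap ℤ ℚ) = Int.castRingHom ℂ := RingHom.ext_int _ _
    rw [e] at h2
    have h3 : eval₂ (Int.castRingHom ℂ) x π = 0 := hπ0
    have h4 : eval₂ (Int.castRingHom ℂ) x (A.coeff j) = 0 := h0 j
    rw [h3, h4] at h2
    simp at h2
  have h2 : C π ∣ A := C_dvd_iff_dvd_coeff _ _ |>.mpr h1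
  obtain ⟨B, hB⟩ := h2
  rcases hA.isUnit_or_isUnit hB with h3 | h3
  · rw [isUnit_C] at h3
    exact hπ.not_isUnit h3
  · have h4 : A.natDegree = 0 := by
      obtain ⟨b, hb, rfl⟩ := Polynomial.isUnit_iff.mp h3
      rw [hB, ← C_mul, natDegree_C]
    omega

theorem resultant_ne_zero_of_not_dvd {A D : ℤ[X][Y]} (hA : Irreducible A) (hd : 1 ≤ A.natDegree)
    (h : ¬ A ∣ D) : resultant A D ≠ 0 := by
  intro h0
  have hinj : Function.Injective (algebraMap ℤ[X] (FractionRing ℤ[X])) :=
    IsFractionRing.injective ℤ[X] (FractionRing ℤ[X])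
  have h1 : resultant (A.map (algebraMap ℤ[X] (FractionRing ℤ[X])))
      (D.map (algebraMap ℤ[X] (FractionRing ℤ[X]))) = 0 := by
    rw [natDegree_map_eq_of_injective hinj, natDegree_map_eq_of_injective hinj, resultant_map_map,
      h0, map_zero]
  rw [resultant_eq_zero_iff] at h1
  exact h1.2 (coprime_of_not_dvd hA (by omega) h)

/-- The relation of resultants coming from a divisibility. -/
theorem resultant_relation {R : Type*} [CommRing R] [IsDomain R] (B U D g : R[X]) (σ : R)
    (hB : B ≠ 0) (hU : U ≠ 0) (hD : D ≠ 0) (hg : g ≠ 0) (hσ : σ ≠ 0) (n r : ℕ)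
    (h : B ∣ U ^ r - C σ * D ^ r * g ^ n) :
    ∃ α β : ℕ, B.leadingCoeff ^ α * resultant B U ^ r =
      σ ^ B.natDegree * B.leadingCoeff ^ β * resultant B D ^ r * resultant B g ^ n := by
  set V := C σ * D ^ r * g ^ n with hV
  obtain ⟨c, hc⟩ := h
  set N := (U ^ r).natDegree + (V.natDegree + B.natDegree) with hN
  have hV0 : V ≠ 0 := mul_ne_zero (mul_ne_zero (C_ne_zero.mpr hσ) (pow_ne_zero _ hD)) (pow_ne_zero _ hg)
  have h1 : resultant B (U ^ r) B.natDegree N = resultant B V B.natDegree N := by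
    have e : U ^ r = V + B * c := by rw [← hc]; ring
    conv_lhs => rw [e]
    apply resultant_add_mul_right _ _ _ _ _ _ le_rfl
    by_cases hc0 : c = 0
    · rw [hc0, natDegree_zero]; omega
    · rw [← natDegree_mul hc0 hB, mul_comm, ← hc]
      refine (natDegree_sub_le _ _).trans ?_
      omega
  have h2 : resultant B (U ^ r) B.natDegree N =
      B.leadingCoeff ^ (V.natDegree + B.natDegree) * resultant B U ^ r := by
    rw [hN, resultant_add_right_deg _ _ _ _ _ le_rfl, coeff_natDegree,
      resultant_pow_right _ _ _ _ le_rfl (pow_ne_zero _ (leadingCoeff_ne_zero.mpr hU))]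
  have h3 : resultant B V B.natDegree N = B.leadingCoeff ^ ((U ^ r).natDegree + B.natDegree) *
      (σ ^ B.natDegree * (resultant B D ^ r * resultant B g ^ n)) := by
    rw [show N = V.natDegree + ((U ^ r).natDegree + B.natDegree) by omega,
      resultant_add_right_deg _ _ _ _ _ le_rfl, coeff_natDegree]
    congr 1
    have e : V.natDegree = (D ^ r).natDegree + (g ^ n).natDegree := by
      rw [hV, mul_assoc, natDegree_C_mul hσ, natDegree_mul (pow_ne_zero _ hD) (pow_ne_zero _ hg)]
    rw [e, hV, mul_assoc, resultant_C_mul_right, resultant_mul_right _ _ _ _ le_rfl,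
      resultant_pow_right _ _ _ _ le_rfl (pow_ne_zero _ (leadingCoeff_ne_zero.mpr hD)),
      resultant_pow_right _ _ _ _ le_rfl (pow_ne_zero _ (leadingCoeff_ne_zero.mpr hg))]
  refine ⟨V.natDegree + B.natDegree, (U ^ r).natDegree + B.natDegree, ?_⟩
  rw [← h2, h1, h3]
  ring

end Pool.Agent.N141.LD
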