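import Pool.Agent.N141.LD.Gauss
import Mathlib.LinearAlgebra.Lagrange

/-!
LD/3: the resultant of `A` and `X ^ p + s Y ^ q` after the substitution `X = T ^ q`.
-/

set_option autoImplicit false

namespace Pool.Agent.N141.LD

open Polynomial
open scoped Polynomial.Bivariate
open Pool.Agent.N741.LD

theorem exists_J (q : ℕ) (hq : 1 ≤ q) (c : ℂ) (hc : c ≠ 0) :
    ∃ J : Finset ℂ, J.card = q ∧ ∀ ζ, ζ ∈ J ↔ ζ ^ q = c := by
  classical
  have hsep : (X ^ q - C c : ℂ[X]).Separable :=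
    separable_X_pow_sub_C c (by exact_mod_cast (show q ≠ 0 by omega)) hc
  refine ⟨(nthRoots q c).toFinset, ?_, fun ζ => ?_⟩
  · rw [nthRoots, Multiset.toFinset_card_of_nodup (nodup_roots hsep)]
    have h1 := (IsAlgClosed.splits (X ^ q - C c : ℂ[X])).natDegree_eq_card_roots
    rw [← h1, natDegree_X_pow_sub_C]
  · rw [Multiset.mem_toFinset, mem_nthRoots (by omega)]

theorem prod_J {q : ℕ} (hq : 1 ≤ q) {c : ℂ} {J : Finset ℂ} (hJ : J.card = q)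
    (hJ' : ∀ ζ, ζ ∈ J ↔ ζ ^ q = c) {t : ℂ[X]} (ht : t ≠ 0) :
    (Y ^ q - C (C c * t ^ q) : ℂ[X][Y]) = ∏ ζ ∈ J, (Y - C (C ζ * t)) := by
  classical
  have hinj : Set.InjOn (fun ζ : ℂ => (C ζ * t : ℂ[X])) (J : Set ℂ) := by
    intro a _ b _ h
    exact C_injective (mul_right_cancel₀ ht h)
  have hcard : (J.image (fun ζ : ℂ => (C ζ * t : ℂ[X]))).card = q := by
    rw [Finset.card_image_of_injOn hinj, hJ]
  have hdeg1 : (Y ^ q - C (C c * t ^ q) : ℂ[X][Y]).degree = q := degree_X_pow_sub_C (by omega) _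
  have hdeg2 : (∏ ζ ∈ J, (Y - C (C ζ * t)) : ℂ[X][Y]).degree = q := by
    rw [degree_prod, Finset.sum_congr rfl (fun ζ _ => degree_X_sub_C (C ζ * t))]
    simp [hJ]
  apply eq_of_degree_sub_lt_of_eval_finset_eq (J.image (fun ζ : ℂ => (C ζ * t : ℂ[X])))
  · rw [hcard, ← hdeg1]
    apply degree_sub_lt_left (by rw [hdeg1, hdeg2])
    · exact (monic_X_pow_sub_C _ (by omega)).ne_zero
    · rw [(monic_X_pow_sub_C _ (by omega)).leadingCoeff]
      exact (monic_prod_of_monic _ _ fun ζ _ => monic_X_sub_C _).leadingCoeff.symm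
  · intro x hx
    rw [Finset.mem_image] at hx
    obtain ⟨ζ, hζ, rfl⟩ := hx
    rw [eval_prod, Finset.prod_eq_zero hζ (by simp)]
    rw [eval_sub, eval_pow, eval_X, eval_C, mul_pow, ← C_pow, (hJ' ζ).mp hζ, sub_self]

theorem map_g (p q : ℕ) (s : ℤ) (hs : s = 1 ∨ s = -1) {J : Finset ℂ} (hq : 1 ≤ q) (hJ : J.card = q)
    (hJ' : ∀ ζ, ζ ∈ J ↔ ζ ^ q = -(s : ℂ)) :
    (C X ^ p + C (C s) * Y ^ q : ℤ[X][Y]).map (phi q) =
      C (C (s : ℂ)) * ∏ ζ ∈ J, (Y - C (C ζ * X ^ p)) := by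
  rw [← prod_J hq hJ hJ' (pow_ne_zero p X_ne_zero)]
  have h1 : (s : ℂ) * s = 1 := by rcases hs with rfl | rfl <;> norm_num
  have h2 : phi q X = X ^ q := by rw [phi_apply]; simp
  have h3 : phi q (C s) = C (s : ℂ) := by rw [phi_apply]; simp
  have h4 : (C (C (s : ℂ) * (C (-(s : ℂ)) * (X ^ p) ^ q)) : ℂ[X][Y]) =
      - (C (X ^ q : ℂ[X]) : ℂ[X][Y]) ^ p := by
    rw [← mul_assoc, ← C_mul, mul_neg, h1, C_neg, C_1, neg_one_mul, C_neg, ← C_pow, ← pow_mul,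
      ← pow_mul, mul_comm p q]
  rw [Polynomial.map_add, Polynomial.map_mul, Polynomial.map_pow, Polynomial.map_pow, map_C, map_C,
    map_X, h2, h3, mul_sub, ← C_mul, h4]
  ring

theorem resultant_g (A : ℤ[X][Y]) (p q : ℕ) (s : ℤ) (hs : s = 1 ∨ s = -1) {J : Finset ℂ}
    (hq : 1 ≤ q) (hJ : J.card = q) (hJ' : ∀ ζ, ζ ∈ J ↔ ζ ^ q = -(s : ℂ)) :
    ∃ ε : ℂ, ε ≠ 0 ∧ resultant (A.map (phi q)) ((C X ^ p + C (C s) * Y ^ q : ℤ[X][Y]).map (phi q)) =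
      C ε * ∏ ζ ∈ J, P A p q ζ := by
  have hs0 : (s : ℂ) ≠ 0 := by rcases hs with rfl | rfl <;> norm_num
  rw [map_g p q s hs hq hJ hJ']
  set B := A.map (phi q) with hB
  refine ⟨(s : ℂ) ^ B.natDegree * ∏ ζ ∈ J, (-1) ^ B.natDegree, ?_, ?_⟩
  · refine mul_ne_zero (pow_ne_zero _ hs0) (Finset.prod_ne_zero_iff.mpr fun _ _ => ?_)
    exact pow_ne_zero _ (by norm_num)
  · rw [natDegree_C_mul (C_ne_zero.mpr hs0), resultant_C_mul_right,
      resultant_prod_right _ _ _ _ le_rfl]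
    · rw [C_mul, C_pow, mul_assoc, map_prod, ← Finset.prod_mul_distrib]
      congr 1
      refine Finset.prod_congr rfl fun ζ _ => ?_
      rw [natDegree_X_sub_C, resultant_X_sub_C_right _ _ _ le_rfl, P, ← hB]
      simp
    · rw [Finset.prod_congr rfl (fun ζ _ => leadingCoeff_X_sub_C (C ζ * X ^ p : ℂ[X]))]
      simp

end Pool.Agent.N141.LD
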