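import Pool.Agent.N141.LD.Prod

/-!
LD/3: the weights of the monomials; `A` does not divide `X ^ p + s Y ^ q`.
-/

set_option autoImplicit false

namespace Pool.Agent.N141.LD

open Polynomial
open scoped Polynomial.Bivariate
open Pool.Agent.N741.LD

theorem weights {A : ℤ[X][Y]} {E : ℕ} (hA : A ≠ 0) (h1 : A.natDegree ≤ E) (h2 : dX A ≤ E)
    (hcol : ¬ Col A) (p q : ℕ) (hq : 1 ≤ q) :
    ∃ i₁ j₁ i₂ j₂ : ℕ, (A.coeff j₁).coeff i₁ ≠ 0 ∧ (A.coeff j₂).coeff i₂ ≠ 0 ∧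
      q * i₁ + p * j₁ < q * i₂ + p * j₂ ∧
      q ≤ 2 * E * ((q * i₂ + p * j₂) - (q * i₁ + p * j₁)) := by
  classical
  set S : Finset (ℕ × ℕ) := (Finset.range (E + 1) ×ˢ Finset.range (E + 1)).filter
    (fun v => (A.coeff v.2).coeff v.1 ≠ 0) with hS
  have hmem : ∀ i j, (A.coeff j).coeff i ≠ 0 → (i, j) ∈ S ∧ i ≤ E ∧ j ≤ E := by
    intro i j hij
    have hj : j ≤ E := by
      by_contra hc
      apply hij
      rw [coeff_eq_zero_of_natDegree_lt (show A.natDegree < j by omega), coeff_zero]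
    have hi : i ≤ E := by
      by_contra hc
      apply hij
      have := natDegree_coeff_le A j
      rw [coeff_eq_zero_of_natDegree_lt (show (A.coeff j).natDegree < i by omega)]
    refine ⟨?_, hi, hj⟩
    rw [hS, Finset.mem_filter, Finset.mem_product, Finset.mem_range, Finset.mem_range]
    exact ⟨⟨by simp; omega, by simp; omega⟩, hij⟩
  have hne : S.Nonempty := by
    have h3 : A.leadingCoeff ≠ 0 := leadingCoeff_ne_zero.mpr hA
    have h4 : A.leadingCoeff.leadingCoeff ≠ 0 := leadingCoeff_ne_zero.mpr h3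
    exact ⟨_, (hmem _ _ h4).1⟩
  obtain ⟨⟨i₁, j₁⟩, hv₁, hmin⟩ := S.exists_min_image (fun v => q * v.1 + p * v.2) hne
  obtain ⟨⟨i₂, j₂⟩, hv₂, hmax⟩ := S.exists_max_image (fun v => q * v.1 + p * v.2) hne
  simp only at hmin hmax
  have hc₁ : (A.coeff j₁).coeff i₁ ≠ 0 := (Finset.mem_filter.mp hv₁).2
  have hc₂ : (A.coeff j₂).coeff i₂ ≠ 0 := (Finset.mem_filter.mp hv₂).2
  have hle : q * i₁ + p * j₁ ≤ q * i₂ + p * j₂ := hmin _ hv₂
  have hlt : q * i₁ + p * j₁ < q * i₂ + p * j₂ := by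
    rcases hle.lt_or_eq with h | h
    · exact h
    · exfalso
      apply hcol
      refine ⟨q, p, ((q * i₁ + p * j₁ : ℕ) : ℤ), Or.inl (by exact_mod_cast (by omega : q ≠ 0)), ?_⟩
      intro i j hij
      have h3 := hmin _ (hmem i j hij).1
      have h4 := hmax _ (hmem i j hij).1
      simp only at h3 h4
      have h5 : q * i + p * j = q * i₁ + p * j₁ := by omega
      exact_mod_cast h5
  refine ⟨i₁, j₁, i₂, j₂, hc₁, hc₂, hlt, ?_⟩
  -- a point off the line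
  have hoff : ∃ i j, (A.coeff j).coeff i ≠ 0 ∧
      ((j₂ : ℤ) - j₁) * i + ((i₁ : ℤ) - i₂) * j ≠ ((j₂ : ℤ) - j₁) * i₁ + ((i₁ : ℤ) - i₂) * j₁ := by
    by_contra hcon
    push Not at hcon
    apply hcol
    refine ⟨(j₂ : ℤ) - j₁, (i₁ : ℤ) - i₂, _, ?_, hcon⟩
    by_contra h3
    push Not at h3
    have h4 : j₂ = j₁ := by have := h3.1; omega
    have h5 : i₂ = i₁ := by have := h3.2; omega
    rw [h4, h5] at hlt
    exact lt_irrefl _ hlt
  obtain ⟨i, j, hij, hdet⟩ := hoff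
  have h3 := hmin _ (hmem i j hij).1
  have h4 := hmax _ (hmem i j hij).1
  simp only at h3 h4
  have hb := (hmem i j hij).2
  have hb₁ := (hmem i₁ j₁ hc₁).2
  have hb₂ := (hmem i₂ j₂ hc₂).2
  have hL : ((((q * i₂ + p * j₂) - (q * i₁ + p * j₁) : ℕ)) : ℤ) =
      ((q : ℤ) * i₂ + p * j₂) - (q * i₁ + p * j₁) := by
    rw [Nat.cast_sub hle]; push_cast; ring
  set L : ℤ := ((q : ℤ) * i₂ + p * j₂) - (q * i₁ + p * j₁) with hLdef
  set w : ℤ := ((q : ℤ) * i + p * j) - (q * i₁ + p * j₁) with hwdef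
  have hL0 : 0 ≤ L := by rw [← hL]; positivity
  have hw0 : 0 ≤ w := by
    have : ((q * i₁ + p * j₁ : ℕ) : ℤ) ≤ ((q * i + p * j : ℕ) : ℤ) := by exact_mod_cast h3
    push_cast at this
    rw [hwdef]; linarith
  have hwL : w ≤ L := by
    have : ((q * i + p * j : ℕ) : ℤ) ≤ ((q * i₂ + p * j₂ : ℕ) : ℤ) := by exact_mod_cast h4
    push_cast at this
    rw [hwdef, hLdef]; linarith
  have key : (q : ℤ) * (((j₂ : ℤ) - j₁) * (i - i₁) - ((i₂ : ℤ) - i₁) * (j - j₁)) =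
      ((j₂ : ℤ) - j₁) * w - ((j : ℤ) - j₁) * L := by
    rw [hwdef, hLdef]; ring
  have hdet0 : ((j₂ : ℤ) - j₁) * (i - i₁) - ((i₂ : ℤ) - i₁) * (j - j₁) ≠ 0 := by
    intro h0
    apply hdet
    linarith
  have habs : (1 : ℤ) ≤ |((j₂ : ℤ) - j₁) * (i - i₁) - ((i₂ : ℤ) - i₁) * (j - j₁)| :=
    Int.one_le_abs hdet0
  have h5 : |((j₂ : ℤ) - j₁)| ≤ E := abs_le.mpr ⟨by omega, by omega⟩
  have h6 : |((j : ℤ) - j₁)| ≤ E := abs_le.mpr ⟨by omega, by omega⟩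
  have h7 : (q : ℤ) ≤ 2 * E * L := by
    calc (q : ℤ) ≤ q * |((j₂ : ℤ) - j₁) * (i - i₁) - ((i₂ : ℤ) - i₁) * (j - j₁)| :=
          le_mul_of_one_le_right (by positivity) habs
      _ = |((j₂ : ℤ) - j₁) * w - ((j : ℤ) - j₁) * L| := by
          rw [← key, abs_mul, abs_of_nonneg (show (0 : ℤ) ≤ q by positivity)]
      _ ≤ |((j₂ : ℤ) - j₁) * w| + |((j : ℤ) - j₁) * L| := abs_sub _ _
      _ = |((j₂ : ℤ) - j₁)| * w + |((j : ℤ) - j₁)| * L := by
          rw [abs_mul, abs_mul, abs_of_nonneg hw0, abs_of_nonneg hL0]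
      _ ≤ E * L + E * L := by gcongr
      _ = 2 * E * L := by ring
  rw [← hL] at h7
  exact_mod_cast h7

theorem not_dvd_g {A : ℤ[X][Y]} {E : ℕ} (h1 : A.natDegree ≤ E) (h2 : dX A ≤ E) {p q : ℕ}
    (hq : 1 ≤ q) {i₁ j₁ i₂ j₂ : ℕ} (hc₁ : (A.coeff j₁).coeff i₁ ≠ 0)
    (hc₂ : (A.coeff j₂).coeff i₂ ≠ 0) (hlt : q * i₁ + p * j₁ < q * i₂ + p * j₂) {s : ℤ}
    (hs : s = 1 ∨ s = -1) : ¬ A ∣ (C X ^ p + C (C s) * Y ^ q : ℤ[X][Y]) := by
  rintro ⟨H, hH⟩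
  have hs0 : (s : ℂ) ≠ 0 := by rcases hs with rfl | rfl <;> norm_num
  have hF1 := W_ne_zero h1 h2 (p := p) hq hc₁
  have hF2 := W_ne_zero h1 h2 (p := p) hq hc₂
  have hF3 : (C (s : ℂ) * X ^ q + 1 : ℂ[X]) ≠ 0 := by
    intro h0
    have h3 := congrArg (fun f => eval 0 f) h0
    simp [show q ≠ 0 by omega] at h3
  obtain ⟨ζ, hζ⟩ : ∃ ζ : ℂ, eval ζ (W A E p q (q * i₁ + p * j₁) * W A E p q (q * i₂ + p * j₂) *
      (C (s : ℂ) * X ^ q + 1)) ≠ 0 := by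
    by_contra hcon
    push Not at hcon
    exact mul_ne_zero (mul_ne_zero hF1 hF2) hF3 (Polynomial.funext fun r => by
      rw [hcon r, eval_zero])
  rw [eval_mul, eval_mul] at hζ
  have hz1 := left_ne_zero_of_mul (left_ne_zero_of_mul hζ)
  have hz2 := right_ne_zero_of_mul (left_ne_zero_of_mul hζ)
  have hz3 := right_ne_zero_of_mul hζ
  rw [← coeff_P_eq h1 h2] at hz1 hz2
  have h3 := congrArg (fun f : ℤ[X][Y] => (f.map (phi q)).eval (C ζ * X ^ p)) hH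
  have h4 : phi q X = X ^ q := by rw [phi_apply]; simp
  have h5 : phi q (C s) = C (s : ℂ) := by rw [phi_apply]; simp
  rw [Polynomial.map_mul, eval_mul, Polynomial.map_add, Polynomial.map_mul, Polynomial.map_pow,
    Polynomial.map_pow, map_C, map_C, map_X, h4, h5, eval_add, eval_mul, eval_pow, eval_pow,
    eval_C, eval_C, eval_X] at h3
  have h6 : (X ^ q) ^ p + C (s : ℂ) * (C ζ * X ^ p) ^ q =
      C (eval ζ (C (s : ℂ) * X ^ q + 1)) * X ^ (p * q) := by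
    rw [mul_pow, ← pow_mul, ← pow_mul, mul_comm q p, ← C_pow]
    simp only [eval_add, eval_mul, eval_C, eval_pow, eval_X, eval_one, C_add, C_mul, C_1]
    ring
  rw [h6] at h3
  have hdvd : P A p q ζ ∣ X ^ (p * q) := by
    have hu : IsUnit (C (eval ζ (C (s : ℂ) * X ^ q + 1)) : ℂ[X]) :=
      isUnit_C.mpr (isUnit_iff_ne_zero.mpr hz3)
    have : P A p q ζ ∣ C (eval ζ (C (s : ℂ) * X ^ q + 1)) * X ^ (p * q) := ⟨_, h3⟩
    rwa [hu.dvd_mul_left] at this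
  rw [dvd_prime_pow prime_X] at hdvd
  obtain ⟨k, -, hk⟩ := hdvd
  obtain ⟨u, hu⟩ := hk.symm
  obtain ⟨c, hc, hcu⟩ := Polynomial.isUnit_iff.mp u.isUnit
  rw [← hcu] at hu
  rw [← hu, mul_comm, coeff_C_mul, coeff_X_pow] at hz1 hz2
  have e1 : q * i₁ + p * j₁ = k := by
    by_contra hne
    rw [if_neg hne, mul_zero] at hz1
    exact hz1 rfl
  have e2 : q * i₂ + p * j₂ = k := by
    by_contra hne
    rw [if_neg hne, mul_zero] at hz2
    exact hz2 rfl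
  omega

end Pool.Agent.N141.LD
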